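import Mathlib

open Finset

namespace Pool.Agent.Results.MP_390221_co.DisjointPairs

/-- the Euclidean plane -/
abbrev Plane := EuclideanSpace ℝ (Fin 2)

/-- The points `p v` are distinct and no three of them are collinear. -/
def GeneralPosition {V : Type*} (p : V → Plane) : Prop :=
  Function.Injective p ∧
    ∀ a b c : V, a ≠ b → a ≠ c → b ≠ c → ¬ Collinear ℝ {p a, p b, p c}

/-- The closed straight line segment that draws the edge `e`. -/
def edgeSegment {V : Type*} (p : V → Plane) (e : Sym2 V) : Set Plane :=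
  convexHull ℝ (p '' {v | v ∈ e})

/-- The set `DJ(G)` of the unordered pairs of disjoint edges of the geometric graph `(G, p)`. -/
def DJ {V : Type*} (G : SimpleGraph V) (p : V → Plane) : Set (Sym2 (Sym2 V)) :=
  {P | ∃ e ∈ G.edgeSet, ∃ f ∈ G.edgeSet, P = s(e, f) ∧
    Disjoint (edgeSegment p e) (edgeSegment p f)}

/-- The average degree `2e/n`. -/
noncomputable def avgDegree {V : Type*} [Fintype V] (G : SimpleGraph V) : ℝ :=
  2 * (G.edgeSet.ncard : ℝ) / (Fintype.card V : ℝ)

/-- The polynomial `x(x-1)(x-2)/6`. -/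
noncomputable def choose3 (x : ℝ) : ℝ := x * (x - 1) * (x - 2) / 6

/-! ### Tournament scores -/

section tournament

variable {V : Type*}

theorem tourn_pairs [DecidableEq V] (W : Finset V) (L : V → V → Prop) [∀ a b, Decidable (L a b)]
    (h1 : ∀ y ∈ W, ∀ z ∈ W, y ≠ z → (L y z ↔ ¬ L z y)) (h2 : ∀ y, ¬ L y y) :
    2 * ∑ y ∈ W, (W.filter (fun z => L y z)).card + W.card = W.card * W.card := by
  have e1 : ∑ y ∈ W, (W.filter (fun z => L y z)).card
      = ∑ y ∈ W, ∑ z ∈ W, if L y z then 1 else 0 := by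
    apply Finset.sum_congr rfl
    intro y _
    rw [Finset.card_filter]
  have e2 : ∑ y ∈ W, ∑ z ∈ W, (if L y z then 1 else 0)
      = ∑ y ∈ W, ∑ z ∈ W, (if L z y then 1 else 0) := Finset.sum_comm
  have e3 : ∑ y ∈ W, ∑ z ∈ W, ((if L y z then 1 else 0) + (if L z y then 1 else 0)
      + (if y = z then 1 else 0)) = W.card * W.card := by
    have : ∀ y ∈ W, ∀ z ∈ W, ((if L y z then 1 else 0) + (if L z y then 1 else 0)
      + (if y = z then 1 else 0)) = 1 := by
      intro y hy z hz
      by_cases hyz : y = z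
      · subst hyz
        simp [h2]
      · have := h1 y hy z hz hyz
        by_cases hL : L y z
        · have h' := this.1 hL
          simp [hL, h', hyz]
        · have h' : L z y := by
            by_contra hcon
            exact hL (this.2 hcon)
          simp [hL, h', hyz]
    rw [Finset.sum_congr rfl (fun y hy => Finset.sum_congr rfl (this y hy))]
    simp
  have e4 : ∑ y ∈ W, ∑ z ∈ W, (if y = z then 1 else 0) = W.card := by
    rw [Finset.card_eq_sum_ones]
    apply Finset.sum_congr rfl
    intro y hy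
    simp [hy]
  have e5 : ∑ y ∈ W, ∑ z ∈ W, ((if L y z then 1 else 0) + (if L z y then 1 else 0)
      + (if y = z then 1 else 0)) = ∑ y ∈ W, ∑ z ∈ W, (if L y z then 1 else 0)
      + ∑ y ∈ W, ∑ z ∈ W, (if L z y then 1 else 0) + ∑ y ∈ W, ∑ z ∈ W, (if y = z then 1 else 0) := by
    simp only [Finset.sum_add_distrib]
  rw [e1]
  omega

theorem nat_ineq (k w : ℕ) : 2 * (k * w) ≤ k * (k + 1) + w * w - w := by
  have h : w ≤ w * w := Nat.le_mul_self w
  zify [h, (by nlinarith : w ≤ k * (k + 1) + w * w)]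
  have hz : ∀ z : ℤ, 0 ≤ z * (z + 1) := by
    intro z
    rcases le_or_gt 0 z with h | h
    · positivity
    · nlinarith
  nlinarith [hz ((k : ℤ) - w)]

theorem score_sum [DecidableEq V] (N : Finset V) (L : V → V → Prop) [∀ a b, Decidable (L a b)]
    (h1 : ∀ y ∈ N, ∀ z ∈ N, y ≠ z → (L y z ↔ ¬ L z y)) (h2 : ∀ y, ¬ L y y) (k : ℕ) :
    ∑ y ∈ N, (k - (N.filter (fun z => L y z)).card) ≤ (k + 1).choose 2 := by
  set s : V → ℕ := fun y => (N.filter (fun z => L y z)).card with hs
  set W := N.filter (fun y => s y < k) with hW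
  have hWN : W ⊆ N := Finset.filter_subset _ _
  have e1 : ∑ y ∈ N, (k - s y) = ∑ y ∈ W, (k - s y) := by
    symm
    apply Finset.sum_subset hWN
    intro x hx hxW
    rw [hW, Finset.mem_filter] at hxW
    push Not at hxW
    have := hxW hx
    omega
  have e2 : ∑ y ∈ W, (k - s y) + ∑ y ∈ W, s y = k * W.card := by
    rw [← Finset.sum_add_distrib]
    rw [Finset.sum_congr rfl (g := fun _ => k)]
    · simp [mul_comm]
    · intro y hy
      have := (Finset.mem_filter.1 hy).2
      omega
  have e3 := tourn_pairs W L (fun y hy z hz => h1 y (hWN hy) z (hWN hz)) h2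
  have e4 : ∑ y ∈ W, (W.filter (fun z => L y z)).card ≤ ∑ y ∈ W, s y := by
    apply Finset.sum_le_sum
    intro y _
    exact Finset.card_le_card (Finset.filter_subset_filter _ hWN)
  have e5 := nat_ineq k W.card
  have e6 : (k + 1).choose 2 * 2 = (k + 1) * k := by
    rw [Nat.choose_two_right]
    simp only [Nat.add_sub_cancel]
    exact Nat.div_mul_cancel (by
      have := Nat.even_mul_succ_self k
      rw [mul_comm]
      exact this.two_dvd)
  have e7 : (k + 1) * k = k * (k + 1) := by ring
  rw [e1]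
  omega

theorem score_choose [DecidableEq V] (N : Finset V) (L : V → V → Prop)
    [∀ a b, Decidable (L a b)]
    (h1 : ∀ y ∈ N, ∀ z ∈ N, y ≠ z → (L y z ↔ ¬ L z y)) (h2 : ∀ y, ¬ L y y) (m : ℕ) :
    ∑ y ∈ N, (m - (N.filter (fun z => L y z)).card).choose 2 ≤ (m + 1).choose 3 := by
  induction m with
  | zero => simp
  | succ m ih =>
    have key : ∀ s : ℕ, (m + 1 - s).choose 2 = (m - s).choose 2 + (m - s) := by
      intro s
      rcases le_or_gt s m with h | h
      · rw [Nat.sub_add_comm h, Nat.choose_succ_succ' (m - s) 1]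
        simp [add_comm]
      · have h1 : m + 1 - s = 0 := by omega
        have h2 : m - s = 0 := by omega
        rw [h1, h2]
        simp
    have e : (m + 1 + 1).choose 3 = (m + 1).choose 2 + (m + 1).choose 3 :=
      Nat.choose_succ_succ' (m + 1) 2
    rw [Finset.sum_congr rfl (fun y _ => key _), Finset.sum_add_distrib, e]
    have := score_sum N L h1 h2 m
    omega

end tournament

/-- the pointwise inequality -/
theorem pointwise (m a b : ℕ) :
    m.choose 2 ≤ a * b + (m - a).choose 2 + (m - b).choose 2 := by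
  have hz : ∀ z : ℤ, 0 ≤ z * (z + 1) := by
    intro z
    rcases le_or_gt 0 z with h | h
    · positivity
    · nlinarith
  have hc : ∀ n : ℕ, ((n.choose 2 : ℕ) : ℝ) = n * (n - 1) / 2 := fun n => Nat.cast_choose_two ℝ n
  have main : (m.choose 2 : ℝ) ≤ a * b + (m - a).choose 2 + (m - b).choose 2 := by
    rw [hc, hc, hc]
    rcases le_or_gt a m with ha | ha <;> rcases le_or_gt b m with hb | hb
    · rw [Nat.cast_sub ha, Nat.cast_sub hb]
      have h := hz ((a : ℤ) + b - m)
      have h' : (0 : ℝ) ≤ ((a : ℝ) + b - m) * ((a : ℝ) + b - m + 1) := by exact_mod_cast h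
      nlinarith
    · rw [Nat.cast_sub ha, Nat.sub_eq_zero_of_le hb.le]
      have ha' : (a : ℝ) ≤ m := by exact_mod_cast ha
      have hb' : (m : ℝ) ≤ b := by exact_mod_cast hb.le
      have ha0 : (0 : ℝ) ≤ a := Nat.cast_nonneg a
      push_cast
      nlinarith [mul_nonneg ha0 (sub_nonneg.2 hb')]
    · rw [Nat.cast_sub hb, Nat.sub_eq_zero_of_le ha.le]
      have hb' : (b : ℝ) ≤ m := by exact_mod_cast hb
      have ha' : (m : ℝ) ≤ a := by exact_mod_cast ha.le
      have hb0 : (0 : ℝ) ≤ b := Nat.cast_nonneg b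
      push_cast
      nlinarith [mul_nonneg hb0 (sub_nonneg.2 ha')]
    · rw [Nat.sub_eq_zero_of_le ha.le, Nat.sub_eq_zero_of_le hb.le]
      have hb' : (m : ℝ) ≤ b := by exact_mod_cast hb.le
      have ha' : (m : ℝ) ≤ a := by exact_mod_cast ha.le
      have hm0 : (0 : ℝ) ≤ m := Nat.cast_nonneg m
      push_cast
      nlinarith [mul_le_mul ha' hb' hm0 (le_trans hm0 ha')]
  exact_mod_cast main

/-! ### Plane geometry -/

/-- orientation -/
def o (A B C : Plane) : ℝ := (B 0 - A 0) * (C 1 - A 1) - (B 1 - A 1) * (C 0 - A 0)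

theorem collinear_of_o {A B C : Plane} (hAB : A ≠ B) (h : o A B C = 0) :
    Collinear ℝ {A, B, C} := by
  rw [collinear_iff_of_mem (p₀ := A) (by simp)]
  refine ⟨B - A, ?_⟩
  intro q hq
  simp only [Set.mem_insert_iff, Set.mem_singleton_iff] at hq
  rcases hq with rfl | rfl | rfl
  · exact ⟨0, by simp⟩
  · exact ⟨1, by simp⟩
  · unfold o at h
    by_cases h0 : B 0 - A 0 = 0
    · have h1 : B 1 - A 1 ≠ 0 := by
        intro h1
        apply hAB
        ext i
        fin_cases i
        · simp only [Fin.zero_eta, Fin.isValue]; linarith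
        · simp only [Fin.mk_one, Fin.isValue]; linarith
      refine ⟨(q 1 - A 1) / (B 1 - A 1), ?_⟩
      ext i
      fin_cases i
      · simp only [Fin.zero_eta, Fin.isValue, vadd_eq_add, PiLp.add_apply, PiLp.smul_apply,
          PiLp.sub_apply, smul_eq_mul]
        rw [h0] at h ⊢
        have : q 0 - A 0 = 0 := by
          rcases mul_eq_zero.1 (by linarith : (B 1 - A 1) * (q 0 - A 0) = 0) with h2 | h2
          · exact absurd h2 h1
          · exact h2
        linarith
      · simp only [Fin.mk_one, Fin.isValue, vadd_eq_add, PiLp.add_apply, PiLp.smul_apply,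
          PiLp.sub_apply, smul_eq_mul]
        field_simp
        ring
    · refine ⟨(q 0 - A 0) / (B 0 - A 0), ?_⟩
      ext i
      fin_cases i
      · simp only [Fin.zero_eta, Fin.isValue, vadd_eq_add, PiLp.add_apply, PiLp.smul_apply,
          PiLp.sub_apply, smul_eq_mul]
        field_simp
        ring
      · simp only [Fin.mk_one, Fin.isValue, vadd_eq_add, PiLp.add_apply, PiLp.smul_apply,
          PiLp.sub_apply, smul_eq_mul]
        field_simp
        linarith

theorem disjoint_of_sides {x y x' y' : Plane} (hxy : x ≠ y) (h : o x y x' * o x y y' < 0) :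
    Disjoint (segment ℝ x x') (segment ℝ y y') := by
  rw [Set.disjoint_left]
  rintro P ⟨s, t, hs, ht, hst, hP⟩ ⟨s', t', hs', ht', hst', hP'⟩
  have h0 : P 0 = s * x 0 + t * x' 0 := by
    rw [← hP]; simp
  have h1 : P 1 = s * x 1 + t * x' 1 := by
    rw [← hP]; simp
  have h0' : P 0 = s' * y 0 + t' * y' 0 := by
    rw [← hP']; simp
  have h1' : P 1 = s' * y 1 + t' * y' 1 := by
    rw [← hP']; simp
  have e1 : o x y P = t * o x y x' := by
    have hs1 : s = 1 - t := by linarith
    unfold o
    rw [h0, h1, hs1]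
    ring
  have e2 : o x y P = t' * o x y y' := by
    have hs1 : s' = 1 - t' := by linarith
    unfold o
    rw [h0', h1', hs1]
    ring
  have e3 : t * o x y x' = t' * o x y y' := by rw [← e1, e2]
  have hne : o x y x' ≠ 0 := by
    intro h'; rw [h'] at h; simp at h
  have hne' : o x y y' ≠ 0 := by
    intro h'; rw [h'] at h; simp at h
  have hsq : 0 < o x y x' ^ 2 := by positivity
  have ht0 : t = 0 := by
    have : t * (o x y x' ^ 2) = t' * (o x y x' * o x y y') := by
      calc t * (o x y x' ^ 2) = (t * o x y x') * o x y x' := by ring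
        _ = (t' * o x y y') * o x y x' := by rw [e3]
        _ = _ := by ring
    have h2 : t' * (o x y x' * o x y y') ≤ 0 := mul_nonpos_of_nonneg_of_nonpos ht' h.le
    have h3 : 0 ≤ t * (o x y x' ^ 2) := mul_nonneg ht hsq.le
    have h4 : t * (o x y x' ^ 2) = 0 := by linarith
    rcases mul_eq_zero.1 h4 with h5 | h5
    · exact h5
    · exact absurd h5 hsq.ne'
  have ht0' : t' = 0 := by
    rw [ht0, zero_mul] at e3
    rcases mul_eq_zero.1 e3.symm with h5 | h5
    · exact h5
    · exact absurd h5 hne'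
  apply hxy
  have hx : P = x := by
    rw [← hP, ht0]
    have : s = 1 := by linarith
    rw [this]; simp
  have hy : P = y := by
    rw [← hP', ht0']
    have : s' = 1 := by linarith
    rw [this]; simp
  rw [← hx, hy]

theorem cross_not_disjoint {a b c d : Plane} (h1 : o b c d * o a c d < 0)
    (h2 : o a b d * o a b c < 0) : ¬ Disjoint (segment ℝ a b) (segment ℝ c d) := by
  have hid : o b c d - o a c d = o a b c - o a b d := by unfold o; ring
  have hpos : 0 < (o b c d - o a c d) ^ 2 := by nlinarith [sq_nonneg (o b c d + o a c d)]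
  have hne : o b c d - o a c d ≠ 0 := by
    intro h; rw [h] at hpos; simp at hpos
  have hne2 : o a b c - o a b d ≠ 0 := by rw [← hid]; exact hne
  have hpos2 : 0 < (o a b c - o a b d) ^ 2 := by rw [← hid]; exact hpos
  have w : ∀ x y : ℝ, x * y < 0 → 0 ≤ x / (x - y) ∧ 0 ≤ -y / (x - y) := by
    intro x y hxy
    rcases lt_trichotomy x 0 with hx | hx | hx
    · have hy : 0 < y := by
        by_contra hc
        push Not at hc
        nlinarith
      exact ⟨div_nonneg_of_nonpos hx.le (by linarith), div_nonneg_of_nonpos (by linarith)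
        (by linarith)⟩
    · subst hx; simp at hxy
    · have hy : y < 0 := by
        by_contra hc
        push Not at hc
        nlinarith
      exact ⟨div_nonneg hx.le (by linarith), div_nonneg (by linarith) (by linarith)⟩
  obtain ⟨w1, w2⟩ := w _ _ h1
  obtain ⟨w3, w4⟩ := w (o a b c) (o a b d) (by linarith)
  rw [Set.not_disjoint_iff]
  refine ⟨(o b c d / (o b c d - o a c d)) • a + (-o a c d / (o b c d - o a c d)) • b,
    ⟨_, _, w1, w2, ?_, rfl⟩, ⟨-o a b d / (o a b c - o a b d), o a b c / (o a b c - o a b d),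
      w4, w3, ?_, ?_⟩⟩
  · field_simp
    ring
  · field_simp
    ring
  · have key : ∀ i : Fin 2, o b c d * a i - o a c d * b i + o a b d * c i - o a b c * d i = 0 := by
      intro i
      fin_cases i
      · simp only [o, Fin.zero_eta, Fin.isValue]; ring
      · simp only [o, Fin.mk_one, Fin.isValue]; ring
    ext i
    simp only [PiLp.add_apply, PiLp.smul_apply, smul_eq_mul]
    rw [← hid]
    field_simp
    linarith [key i]

theorem o_swap12 (A B C : Plane) : o B A C = - o A B C := by unfold o; ring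
theorem o_swap23 (A B C : Plane) : o A C B = - o A B C := by unfold o; ring
theorem o_cyc (A B C : Plane) : o B C A = o A B C := by unfold o; ring

open Classical in
/-- indicator of negative numbers -/
noncomputable def neg1 (x : ℝ) : ℕ := if x < 0 then 1 else 0

/-- among the four possible middle edges at most two are of zigzag type -/
theorem four_flips {a b c d : Plane} (hA : o b c d ≠ 0) (hB : o a c d ≠ 0) (hC : o a b d ≠ 0)
    (hD : o a b c ≠ 0) (h : Disjoint (segment ℝ a b) (segment ℝ c d)) :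
    neg1 (o a c b * o a c d) + neg1 (o b c a * o b c d) + neg1 (o a d b * o a d c)
      + neg1 (o b d a * o b d c) ≤ 2 := by
  have hcr : ¬ (o b c d * o a c d < 0 ∧ o a b d * o a b c < 0) := fun hh =>
    cross_not_disjoint hh.1 hh.2 h
  have r1 : o a c b = - o a b c := o_swap23 a b c
  have r2 : o b c a = o a b c := o_cyc a b c
  have r3 : o a d b = - o a b d := o_swap23 a b d
  have r4 : o a d c = - o a c d := o_swap23 a c d
  have r5 : o b d a = o a b d := o_cyc a b d
  have r6 : o b d c = - o b c d := o_swap23 b c d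
  rw [r1, r2, r3, r4, r5, r6]
  generalize o b c d = A at *
  generalize o a c d = B at *
  generalize o a b d = C at *
  generalize o a b c = D at *
  have sg : ∀ x y : ℝ, x ≠ 0 → y ≠ 0 → (x * y < 0 ↔ ¬ (0 < x ↔ 0 < y)) := by
    intro x y hx hy
    rcases lt_or_gt_of_ne hx with h1 | h1 <;> rcases lt_or_gt_of_ne hy with h2 | h2
    · have := mul_pos_of_neg_of_neg h1 h2
      constructor
      · intro h; linarith
      · intro h; exact absurd (by constructor <;> intro h' <;> linarith) h
    · have := mul_neg_of_neg_of_pos h1 h2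
      exact ⟨fun _ h' => by have := h'.2 h2; linarith, fun _ => this⟩
    · have := mul_neg_of_pos_of_neg h1 h2
      exact ⟨fun _ h' => by have := h'.1 h1; linarith, fun _ => this⟩
    · have := mul_pos h1 h2
      constructor
      · intro h; linarith
      · intro h; exact absurd (by constructor <;> intro h' <;> assumption) h
  have ng : ∀ x y : ℝ, x ≠ 0 → y ≠ 0 → (-x * y < 0 ↔ (0 < x ↔ 0 < y)) := by
    intro x y hx hy
    rcases lt_or_gt_of_ne hx with h1 | h1 <;> rcases lt_or_gt_of_ne hy with h2 | h2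
    · have := mul_pos_of_neg_of_neg h1 h2
      exact ⟨fun _ => by constructor <;> intro h' <;> linarith, fun _ => by linarith⟩
    · have := mul_neg_of_neg_of_pos h1 h2
      exact ⟨fun h' => by linarith, fun h' => by have := h'.2 h2; linarith⟩
    · have := mul_neg_of_pos_of_neg h1 h2
      exact ⟨fun h' => by linarith, fun h' => by have := h'.1 h1; linarith⟩
    · have := mul_pos h1 h2
      exact ⟨fun _ => by constructor <;> intro h' <;> assumption, fun _ => by linarith⟩
  rw [sg A B hA hB, sg C D hC hD] at hcr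
  have c1 : -D * B < 0 ↔ (0 < D ↔ 0 < B) := ng D B hD hB
  have c2 : D * A < 0 ↔ ¬ (0 < D ↔ 0 < A) := sg D A hD hA
  have c3 : -C * -B < 0 ↔ ¬ (0 < C ↔ 0 < B) := by
    rw [neg_mul_neg]; exact sg C B hC hB
  have c4 : C * -A < 0 ↔ (0 < C ↔ 0 < A) := by
    rw [mul_neg, ← neg_mul]; exact ng C A hC hA
  unfold neg1
  simp only [c1, c2, c3, c4]
  by_cases pA : 0 < A <;> by_cases pB : 0 < B <;> by_cases pC : 0 < C <;> by_cases pD : 0 < D <;>
    first
    | (exfalso; apply hcr; simp only [pA, pB, pC, pD]; simp; done)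
    | (simp only [pA, pB, pC, pD]; simp; done)

/-! ### Counting -/

section counting

variable {V : Type*} [Fintype V]

theorem edgeSegment_mk (p : V → Plane) (a b : V) :
    edgeSegment p s(a, b) = segment ℝ (p a) (p b) := by
  have : {v | v ∈ s(a, b)} = ({a, b} : Set V) := by
    ext v; simp
  unfold edgeSegment
  rw [this, Set.image_pair, convexHull_pair]

open Classical in
/-- tuples `(a, c, b, d)` such that `ab` and `cd` are disjoint edges -/
noncomputable def Q (G : SimpleGraph V) (p : V → Plane) : Finset (V × V × V × V) :=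
  Finset.univ.filter (fun t => G.Adj t.1 t.2.2.1 ∧ G.Adj t.2.1 t.2.2.2 ∧
    Disjoint (segment ℝ (p t.1) (p t.2.2.1)) (segment ℝ (p t.2.1) (p t.2.2.2)))

theorem card_Q_le (G : SimpleGraph V) (p : V → Plane) : (Q G p).card ≤ 8 * (DJ G p).ncard := by
  classical
  have hfin : (DJ G p).Finite := Set.toFinite _
  rw [Set.ncard_eq_toFinset_card _ hfin]
  apply Finset.card_le_mul_card_image_of_maps_to
    (f := fun t : V × V × V × V => s(s(t.1, t.2.2.1), s(t.2.1, t.2.2.2)))
  · rintro ⟨a, c, b, d⟩ ht
    obtain ⟨-, h1, h2, h3⟩ := Finset.mem_filter.1 ht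
    rw [Set.Finite.mem_toFinset]
    exact ⟨s(a, b), h1, s(c, d), h2, rfl, by rw [edgeSegment_mk, edgeSegment_mk]; exact h3⟩
  · intro P hP
    rw [Set.Finite.mem_toFinset] at hP
    obtain ⟨e, he, f, hf, rfl, -⟩ := hP
    induction e using Sym2.ind with
    | _ a0 b0 =>
    induction f using Sym2.ind with
    | _ c0 d0 =>
    let g : Bool × Bool × Bool → V × V × V × V := fun x =>
      match x with
      | (true, true, true) => (a0, c0, b0, d0)
      | (true, true, false) => (a0, d0, b0, c0)
      | (true, false, true) => (b0, c0, a0, d0)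
      | (true, false, false) => (b0, d0, a0, c0)
      | (false, true, true) => (c0, a0, d0, b0)
      | (false, true, false) => (c0, b0, d0, a0)
      | (false, false, true) => (d0, a0, c0, b0)
      | (false, false, false) => (d0, b0, c0, a0)
    have hsub : (Q G p).filter (fun t => s(s(t.1, t.2.2.1), s(t.2.1, t.2.2.2))
        = s(s(a0, b0), s(c0, d0))) ⊆ Finset.univ.image g := by
      rintro ⟨a, c, b, d⟩ ht
      have h := (Finset.mem_filter.1 ht).2
      simp only at h
      rw [Finset.mem_image]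
      rw [Sym2.eq_iff] at h
      rcases h with ⟨h1, h2⟩ | ⟨h1, h2⟩
      · rw [Sym2.eq_iff] at h1 h2
        rcases h1 with ⟨rfl, rfl⟩ | ⟨rfl, rfl⟩ <;> rcases h2 with ⟨rfl, rfl⟩ | ⟨rfl, rfl⟩
        · exact ⟨(true, true, true), Finset.mem_univ _, rfl⟩
        · exact ⟨(true, true, false), Finset.mem_univ _, rfl⟩
        · exact ⟨(true, false, true), Finset.mem_univ _, rfl⟩
        · exact ⟨(true, false, false), Finset.mem_univ _, rfl⟩
      · rw [Sym2.eq_iff] at h1 h2
        rcases h1 with ⟨rfl, rfl⟩ | ⟨rfl, rfl⟩ <;> rcases h2 with ⟨rfl, rfl⟩ | ⟨rfl, rfl⟩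
        · exact ⟨(false, true, true), Finset.mem_univ _, rfl⟩
        · exact ⟨(false, true, false), Finset.mem_univ _, rfl⟩
        · exact ⟨(false, false, true), Finset.mem_univ _, rfl⟩
        · exact ⟨(false, false, false), Finset.mem_univ _, rfl⟩
    refine (Finset.card_le_card hsub).trans (Finset.card_image_le.trans ?_)
    simp

/-- the flip of the first edge -/
def flip1 : V × V × V × V ≃ V × V × V × V where
  toFun t := (t.2.2.1, t.2.1, t.1, t.2.2.2)
  invFun t := (t.2.2.1, t.2.1, t.1, t.2.2.2)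
  left_inv _ := rfl
  right_inv _ := rfl

/-- the flip of the second edge -/
def flip2 : V × V × V × V ≃ V × V × V × V where
  toFun t := (t.1, t.2.2.2, t.2.2.1, t.2.1)
  invFun t := (t.1, t.2.2.2, t.2.2.1, t.2.1)
  left_inv _ := rfl
  right_inv _ := rfl

theorem mem_Q_flip1 (G : SimpleGraph V) (p : V → Plane) (t : V × V × V × V) :
    t ∈ Q G p ↔ flip1 t ∈ Q G p := by
  obtain ⟨a, c, b, d⟩ := t
  simp only [Q, flip1, Finset.mem_filter, Finset.mem_univ, true_and, Equiv.coe_fn_mk]
  rw [G.adj_comm a b, segment_symm ℝ (p a) (p b)]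

theorem mem_Q_flip2 (G : SimpleGraph V) (p : V → Plane) (t : V × V × V × V) :
    t ∈ Q G p ↔ flip2 t ∈ Q G p := by
  obtain ⟨a, c, b, d⟩ := t
  simp only [Q, flip2, Finset.mem_filter, Finset.mem_univ, true_and, Equiv.coe_fn_mk]
  rw [G.adj_comm c d, segment_symm ℝ (p c) (p d)]

/-- indicator of the zigzag type -/
noncomputable def zz (p : V → Plane) (t : V × V × V × V) : ℕ :=
  neg1 (o (p t.1) (p t.2.1) (p t.2.2.1) * o (p t.1) (p t.2.1) (p t.2.2.2))

theorem o_ne {p : V → Plane} (hp : GeneralPosition p) {a b c : V} (hab : a ≠ b) (hac : a ≠ c)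
    (hbc : b ≠ c) : o (p a) (p b) (p c) ≠ 0 := fun h =>
  hp.2 a b c hab hac hbc (collinear_of_o (fun h' => hab (hp.1 h')) h)

theorem sum_zz (G : SimpleGraph V) {p : V → Plane} (hp : GeneralPosition p) :
    2 * ∑ t ∈ Q G p, zz p t ≤ (Q G p).card := by
  classical
  have e1 : ∑ t ∈ Q G p, zz p t = ∑ t ∈ Q G p, zz p (flip1 t) :=
    (Finset.sum_equiv flip1 (mem_Q_flip1 G p) (fun _ _ => rfl)).symm
  have e2 : ∑ t ∈ Q G p, zz p t = ∑ t ∈ Q G p, zz p (flip2 t) :=
    (Finset.sum_equiv flip2 (mem_Q_flip2 G p) (fun _ _ => rfl)).symm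
  have e3 : ∑ t ∈ Q G p, zz p (flip1 t) = ∑ t ∈ Q G p, zz p (flip1 (flip2 t)) :=
    (Finset.sum_equiv (f := fun t => zz p (flip1 (flip2 t))) (g := fun t => zz p (flip1 t))
      flip2 (mem_Q_flip2 G p) (fun _ _ => rfl)).symm
  have key : ∑ t ∈ Q G p, (zz p t + zz p (flip1 t) + zz p (flip2 t) + zz p (flip1 (flip2 t)))
      ≤ ∑ t ∈ Q G p, 2 := by
    apply Finset.sum_le_sum
    rintro ⟨a, c, b, d⟩ ht
    obtain ⟨-, h1, h2, h3⟩ := Finset.mem_filter.1 ht
    simp only at h1 h2 h3
    have hab : a ≠ b := h1.ne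
    have hcd : c ≠ d := h2.ne
    have dis := Set.disjoint_left.1 h3
    have hac : a ≠ c := by
      rintro rfl
      exact dis (left_mem_segment ℝ _ _) (left_mem_segment ℝ _ _)
    have had : a ≠ d := by
      rintro rfl
      exact dis (left_mem_segment ℝ _ _) (right_mem_segment ℝ _ _)
    have hbc : b ≠ c := by
      rintro rfl
      exact dis (right_mem_segment ℝ _ _) (left_mem_segment ℝ _ _)
    have hbd : b ≠ d := by
      rintro rfl
      exact dis (right_mem_segment ℝ _ _) (right_mem_segment ℝ _ _)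
    have := four_flips (o_ne hp hbc hbd hcd) (o_ne hp hac had hcd) (o_ne hp hab had hbd)
      (o_ne hp hab hac hbc) h3
    simpa only [zz, flip1, flip2, Equiv.coe_fn_mk] using this
  rw [Finset.sum_add_distrib, Finset.sum_add_distrib, Finset.sum_add_distrib, ← e3, ← e1, ← e2]
    at key
  simp only [Finset.sum_const, smul_eq_mul] at key
  omega

open Classical in
/-- the neighbours -/
noncomputable def nb (G : SimpleGraph V) (a : V) : Finset V := Finset.univ.filter (fun b => G.Adj a b)

open Classical in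
/-- number of neighbours of `a` to the left of the ray from `a` to `c` -/
noncomputable def lam (G : SimpleGraph V) (p : V → Plane) (a c : V) : ℕ :=
  ((nb G a).filter (fun b => 0 < o (p a) (p c) (p b))).card

open Classical in
/-- number of neighbours of `a` to the right of the ray from `a` to `c` -/
noncomputable def rho (G : SimpleGraph V) (p : V → Plane) (a c : V) : ℕ :=
  ((nb G a).filter (fun b => o (p a) (p c) (p b) < 0)).card

theorem mem_nb {G : SimpleGraph V} {a b : V} : b ∈ nb G a ↔ G.Adj a b := by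
  simp [nb]

theorem sum_lam (G : SimpleGraph V) {p : V → Plane} (hp : GeneralPosition p) (m : ℕ) (a : V) :
    ∑ c ∈ nb G a, (m - lam G p a c).choose 2 ≤ (m + 1).choose 3 := by
  classical
  have := score_choose (nb G a) (fun c b => 0 < o (p a) (p c) (p b)) ?_ ?_ m
  · unfold lam
    convert this
  · intro y hy z hz hyz
    have h1 := (mem_nb.1 hy).ne
    have h2 := (mem_nb.1 hz).ne
    have h3 := o_ne hp h1 h2 hyz
    have h4 := o_swap23 (p a) (p y) (p z)
    rw [h4]
    constructor
    · intro h; linarith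
    · intro h
      rcases lt_or_gt_of_ne h3 with h5 | h5
      · exact absurd (by linarith) h
      · exact h5
  · intro y
    unfold o
    have : (p y 0 - p a 0) * (p y 1 - p a 1) - (p y 1 - p a 1) * (p y 0 - p a 0) = 0 := by ring
    rw [this]
    exact lt_irrefl _

theorem sum_rho (G : SimpleGraph V) {p : V → Plane} (hp : GeneralPosition p) (m : ℕ) (a : V) :
    ∑ c ∈ nb G a, (m - rho G p a c).choose 2 ≤ (m + 1).choose 3 := by
  classical
  have := score_choose (nb G a) (fun c b => o (p a) (p c) (p b) < 0) ?_ ?_ m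
  · unfold rho
    convert this
  · intro y hy z hz hyz
    have h1 := (mem_nb.1 hy).ne
    have h2 := (mem_nb.1 hz).ne
    have h3 := o_ne hp h1 h2 hyz
    have h4 := o_swap23 (p a) (p y) (p z)
    rw [h4]
    constructor
    · intro h; linarith
    · intro h
      rcases lt_or_gt_of_ne h3 with h5 | h5
      · exact h5
      · exact absurd (by linarith) h
  · intro y
    unfold o
    have : (p y 0 - p a 0) * (p y 1 - p a 1) - (p y 1 - p a 1) * (p y 0 - p a 0) = 0 := by ring
    rw [this]
    exact lt_irrefl _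

/-- sums over ordered adjacent pairs are symmetric -/
theorem sum_symm (G : SimpleGraph V) (f : V → V → ℕ) :
    ∑ a, ∑ c ∈ nb G a, f a c = ∑ a, ∑ c ∈ nb G a, f c a := by
  classical
  unfold nb
  simp only [Finset.sum_filter]
  rw [Finset.sum_comm]
  simp only [G.adj_comm]

theorem sum_card_nb (G : SimpleGraph V) : ∑ a, (nb G a).card = 2 * G.edgeSet.ncard := by
  classical
  have h := G.sum_degrees_eq_twice_card_edges
  have h1 : G.edgeSet.ncard = G.edgeFinset.card := by
    rw [Set.ncard_eq_toFinset_card']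
    rfl
  rw [h1, ← h]
  apply Finset.sum_congr rfl
  intro a _
  rw [← SimpleGraph.card_neighborFinset_eq_degree]
  congr 1
  ext b
  simp [mem_nb]

theorem lower (G : SimpleGraph V) (m : ℕ) (g : V → V → ℕ)
    (hg : ∀ a, ∑ c ∈ nb G a, (m - g a c).choose 2 ≤ (m + 1).choose 3) :
    2 * G.edgeSet.ncard * m.choose 2 ≤
      ∑ a, ∑ c ∈ nb G a, g a c * g c a + 2 * (Fintype.card V * (m + 1).choose 3) := by
  have e1 : ∑ a, ∑ c ∈ nb G a, m.choose 2 ≤
      ∑ a, ∑ c ∈ nb G a, (g a c * g c a + (m - g a c).choose 2 + (m - g c a).choose 2) :=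
    Finset.sum_le_sum fun a _ => Finset.sum_le_sum fun c _ => pointwise m _ _
  simp only [Finset.sum_add_distrib, Finset.sum_const, smul_eq_mul] at e1
  rw [← Finset.sum_mul, sum_card_nb, ← sum_symm G (fun a c => (m - g a c).choose 2)] at e1
  have e2 : ∑ a, ∑ c ∈ nb G a, (m - g a c).choose 2 ≤ Fintype.card V * (m + 1).choose 3 := by
    calc _ ≤ ∑ _a : V, (m + 1).choose 3 := Finset.sum_le_sum fun a _ => hg a
      _ = _ := by simp
  omega

open Classical in
/-- the zigzags -/
noncomputable def Z (G : SimpleGraph V) (p : V → Plane) : Finset (V × V × V × V) :=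
  Finset.univ.filter (fun t => G.Adj t.1 t.2.1 ∧ G.Adj t.1 t.2.2.1 ∧ G.Adj t.2.1 t.2.2.2 ∧
    o (p t.1) (p t.2.1) (p t.2.2.1) * o (p t.1) (p t.2.1) (p t.2.2.2) < 0)

theorem card_Z_le (G : SimpleGraph V) {p : V → Plane} (hp : GeneralPosition p) :
    (Z G p).card ≤ ∑ t ∈ Q G p, zz p t := by
  classical
  rw [Finset.card_eq_sum_ones]
  have hsub : Z G p ⊆ Q G p := by
    rintro ⟨a, c, b, d⟩ ht
    obtain ⟨-, h1, h2, h3, h4⟩ := Finset.mem_filter.1 ht
    exact Finset.mem_filter.2 ⟨Finset.mem_univ _, h2, h3,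
      disjoint_of_sides (fun h => h1.ne (hp.1 h)) h4⟩
  calc ∑ t ∈ Z G p, 1 ≤ ∑ t ∈ Z G p, zz p t := by
        apply Finset.sum_le_sum
        rintro ⟨a, c, b, d⟩ ht
        obtain ⟨-, h1, h2, h3, h4⟩ := Finset.mem_filter.1 ht
        simp only at h4
        simp only [zz, neg1, h4, if_true, le_refl]
    _ ≤ _ := Finset.sum_le_sum_of_subset hsub

theorem le_card_Z (G : SimpleGraph V) (p : V → Plane) :
    ∑ a, ∑ c ∈ nb G a, lam G p a c * lam G p c a + ∑ a, ∑ c ∈ nb G a, rho G p a c * rho G p c a
      ≤ (Z G p).card := by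
  classical
  let Λ : V → V → Finset V := fun a c => (nb G a).filter (fun b => 0 < o (p a) (p c) (p b))
  let P : V → V → Finset V := fun a c => (nb G a).filter (fun b => o (p a) (p c) (p b) < 0)
  let T : V × V → Finset (V × V) := fun q => (Λ q.1 q.2 ×ˢ Λ q.2 q.1) ∪ (P q.1 q.2 ×ˢ P q.2 q.1)
  have hT : ∀ q, (T q).card = lam G p q.1 q.2 * lam G p q.2 q.1 + rho G p q.1 q.2 * rho G p q.2 q.1 := by
    intro q
    have hd : Disjoint (Λ q.1 q.2 ×ˢ Λ q.2 q.1) (P q.1 q.2 ×ˢ P q.2 q.1) := by
      rw [Finset.disjoint_left]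
      rintro ⟨b, d⟩ h1 h2
      have h3 := (Finset.mem_filter.1 (Finset.mem_product.1 h1).1).2
      have h4 := (Finset.mem_filter.1 (Finset.mem_product.1 h2).1).2
      simp only at h3 h4
      linarith
    rw [Finset.card_union_of_disjoint hd, Finset.card_product, Finset.card_product]
    rfl
  let Dt : Finset (V × V) := Finset.univ.filter (fun q => G.Adj q.1 q.2)
  have e1 : ∑ a, ∑ c ∈ nb G a, lam G p a c * lam G p c a
      + ∑ a, ∑ c ∈ nb G a, rho G p a c * rho G p c a = (Dt.sigma T).card := by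
    rw [Finset.card_sigma, ← Finset.sum_add_distrib]
    simp only [hT]
    simp only [Dt, Finset.sum_filter, Fintype.sum_prod_type, nb, ← Finset.sum_add_distrib]
    apply Finset.sum_congr rfl
    intro a _
    apply Finset.sum_congr rfl
    intro c _
    split_ifs <;> rfl
  rw [e1]
  apply Finset.card_le_card_of_injOn (fun x => (x.1.1, x.1.2, x.2.1, x.2.2))
  · rintro ⟨⟨a, c⟩, ⟨b, d⟩⟩ hx
    have hx' := Finset.mem_sigma.1 (Finset.mem_coe.1 hx)
    obtain ⟨h1, h2⟩ := hx'
    have hac : G.Adj a c := (Finset.mem_filter.1 h1).2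
    have hsw : o (p c) (p a) (p d) = - o (p a) (p c) (p d) := o_swap12 _ _ _
    simp only at h2
    rw [Finset.mem_coe, Z, Finset.mem_filter]
    refine ⟨Finset.mem_univ _, hac, ?_⟩
    rcases Finset.mem_union.1 h2 with h3 | h3
    · obtain ⟨h4, h5⟩ := Finset.mem_product.1 h3
      have h6 := Finset.mem_filter.1 h4
      have h7 := Finset.mem_filter.1 h5
      simp only at h6 h7
      refine ⟨mem_nb.1 h6.1, mem_nb.1 h7.1, ?_⟩
      have h8 := h7.2
      rw [hsw] at h8
      exact mul_neg_of_pos_of_neg h6.2 (by linarith)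
    · obtain ⟨h4, h5⟩ := Finset.mem_product.1 h3
      have h6 := Finset.mem_filter.1 h4
      have h7 := Finset.mem_filter.1 h5
      simp only at h6 h7
      refine ⟨mem_nb.1 h6.1, mem_nb.1 h7.1, ?_⟩
      have h8 := h7.2
      rw [hsw] at h8
      exact mul_neg_of_neg_of_pos h6.2 (by linarith)
  · rintro ⟨⟨a, c⟩, ⟨b, d⟩⟩ _ ⟨⟨a', c'⟩, ⟨b', d'⟩⟩ _ h
    simp only [Prod.mk.injEq] at h
    obtain ⟨rfl, rfl, rfl, rfl⟩ := h
    rfl

/-- The main inequality: for every natural number `m`, the number of disjoint pairs is at least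
`e * C(m,2) - n * C(m+1,3)`. -/
theorem main (G : SimpleGraph V) {p : V → Plane} (hp : GeneralPosition p) (m : ℕ) :
    G.edgeSet.ncard * m.choose 2 ≤ (DJ G p).ncard + Fintype.card V * (m + 1).choose 3 := by
  have h1 := lower G m (lam G p) (sum_lam G hp m)
  have h2 := lower G m (rho G p) (sum_rho G hp m)
  have h3 := le_card_Z G p
  have h4 := card_Z_le G hp
  have h5 := sum_zz G hp
  have h6 := card_Q_le G p
  have e : 2 * G.edgeSet.ncard * m.choose 2 = 2 * (G.edgeSet.ncard * m.choose 2) := by ring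
  rw [e] at h1 h2
  omega

end counting

/-- Every geometric graph `(G, p)` with `n` vertices and `e` edges, `2e ≥ n`, has at least
`(n/2) * d(d-1)(d-2)/6` pairs of disjoint edges, where `d = 2e/n`. -/
theorem result {V : Type*} [Fintype V] (G : SimpleGraph V) (p : V → Plane)
    (hp : GeneralPosition p) (h : Fintype.card V ≤ 2 * G.edgeSet.ncard) :
    (Fintype.card V : ℝ) / 2 * choose3 (avgDegree G) ≤ ((DJ G p).ncard : ℝ) := by
  rcases Nat.eq_zero_or_pos (Fintype.card V) with hn | hn
  · rw [hn]
    simp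
  · set n : ℝ := (Fintype.card V : ℝ) with hn'
    have hn0 : 0 < n := by rw [hn']; exact_mod_cast hn
    set x : ℝ := avgDegree G with hx
    have hx1 : 1 ≤ x := by
      rw [hx, avgDegree, le_div_iff₀ hn0, one_mul]
      rw [hn']
      exact_mod_cast h
    have he : (G.edgeSet.ncard : ℝ) = n * x / 2 := by
      rw [hx, avgDegree, ← hn']
      field_simp
    set m : ℕ := ⌊x⌋₊ with hm
    have hmx : (m : ℝ) ≤ x := Nat.floor_le (by linarith)
    have hxm : x < m + 1 := Nat.lt_floor_add_one x
    have hm1 : (1 : ℝ) ≤ m := by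
      have : 1 ≤ m := (Nat.one_le_floor_iff _).2 hx1
      exact_mod_cast this
    have key := main G hp m
    have key' : (G.edgeSet.ncard : ℝ) * (m.choose 2 : ℕ) ≤ ((DJ G p).ncard : ℝ) + n * ((m + 1).choose 3 : ℕ) := by
      rw [hn']
      exact_mod_cast key
    have c2 : ((m.choose 2 : ℕ) : ℝ) = m * (m - 1) / 2 := Nat.cast_choose_two ℝ m
    have c3 : (((m + 1).choose 3 : ℕ) : ℝ) = (m + 1) * m * (m - 1) / 6 := by
      have h3 : (m + 1) * m.choose 2 = (m + 1).choose 3 * 3 := Nat.add_one_mul_choose_eq m 2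
      have h3' : ((m : ℝ) + 1) * (m.choose 2 : ℕ) = ((m + 1).choose 3 : ℕ) * 3 := by
        exact_mod_cast h3
      rw [c2] at h3'
      linarith
    rw [c2, c3, he] at key'
    unfold choose3
    have hcub : 0 ≤ n * ((x - m) * ((m + 1 - x) * (x + 2 * m - 2))) := by
      apply mul_nonneg hn0.le
      apply mul_nonneg (by linarith)
      apply mul_nonneg (by linarith)
      linarith
    nlinarith [hcub, key']

end Pool.Agent.Results.MP_390221_co.DisjointPairs
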